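import Pool.Agent.H242.GX.Stm

/-!
GX-TAN of project GX (`Pool/Agent/H242/GX/Stm.lean`): the tangent directions. If `v` is not parallel to `e θ` then
the line through `gam p θ` with the direction `v` meets the interior of the body, by compactness.
-/

set_option autoImplicit false

open Set Filter Topology
open Pool.Agent.H242.GX

namespace Pool.Agent.H922.GXTAN

lemma nu_per (α : ℝ) (k : ℤ) : nu (α + k * (2 * Real.pi)) = nu α := by
  unfold nu
  rw [Real.sin_add_int_mul_two_pi, Real.cos_add_int_mul_two_pi]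

lemma p_per {p : ℝ → ℝ} (hp : Supp p) (α : ℝ) (k : ℤ) : p (α + k * (2 * Real.pi)) = p α := by
  have h : Function.Periodic p (2 * Real.pi) := hp.per
  exact h.int_mul k α

lemma ip_eq (z : ℂ) (α : ℝ) : ip z (nu α) = z.re * Real.sin α - z.im * Real.cos α := by
  unfold ip nu
  ring

lemma ip_add (z w : ℂ) (t α : ℝ) : ip (z + t • w) (nu α) = ip z (nu α) + t * ip w (nu α) := by
  rw [ip_eq, ip_eq, ip_eq]
  simp only [Complex.add_re, Complex.add_im, Complex.smul_re, Complex.smul_im, smul_eq_mul]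
  ring

lemma cont_ip (z : ℂ) : Continuous fun α => ip z (nu α) := by
  simp only [ip_eq]
  fun_prop

lemma ip_bound (v : ℂ) (α : ℝ) : |ip v (nu α)| ≤ |v.re| + |v.im| := by
  rw [ip_eq]
  have h1 : |v.re * Real.sin α| ≤ |v.re| := by
    rw [abs_mul]
    exact mul_le_of_le_one_right (abs_nonneg _) (Real.abs_sin_le_one α)
  have h2 : |v.im * Real.cos α| ≤ |v.im| := by
    rw [abs_mul]
    exact mul_le_of_le_one_right (abs_nonneg _) (Real.abs_cos_le_one α)
  exact (abs_sub _ _).trans (add_le_add h1 h2)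

/-- If `v` points to the inside then a point of the line is in the interior. -/
lemma inside (hKEY : S_KEY) {p : ℝ → ℝ} (hp : Supp p) (θ : ℝ) (v : ℂ) (hv : ip v (nu θ) < 0) :
    ∃ t : ℝ, ∀ α, ip (gam p θ + t • v) (nu α) < p α := by
  have hP : Psi p θ 0 = gam p θ := by unfold Psi; simp
  have hk : ∀ α, ip (gam p θ) (nu α) ≤ p α ∧
      (ip (gam p θ) (nu α) = p α → ∃ k : ℤ, α = θ + k * (2 * Real.pi)) := by
    intro α
    have h := hKEY p hp θ 0 (fun α => by rw [add_zero]; exact hp.pos α) α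
    rw [hP, add_zero] at h
    exact h
  have hpi := Real.pi_pos
  obtain ⟨δ, hδ, hg⟩ : ∃ δ : ℝ, 0 < δ ∧ ∀ α ∈ Icc (θ - Real.pi) (θ + Real.pi),
      0 ≤ ip v (nu α) → δ ≤ p α - ip (gam p θ) (nu α) := by
    have hC : IsCompact (Icc (θ - Real.pi) (θ + Real.pi) ∩ {α | 0 ≤ ip v (nu α)}) :=
      isCompact_Icc.inter_right (isClosed_le continuous_const (cont_ip v))
    have hc : Continuous fun α => p α - ip (gam p θ) (nu α) :=
      hp.smooth.continuous.sub (cont_ip _)
    by_cases hne : (Icc (θ - Real.pi) (θ + Real.pi) ∩ {α | 0 ≤ ip v (nu α)}).Nonempty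
    · obtain ⟨α₀, h1, h2⟩ := hC.exists_isMinOn hne hc.continuousOn
      refine ⟨p α₀ - ip (gam p θ) (nu α₀), ?_, fun α hα h0 => h2 ⟨hα, h0⟩⟩
      rcases (hk α₀).1.lt_or_eq with h3 | h3
      · linarith
      · exfalso
        obtain ⟨k, hkk⟩ := (hk α₀).2 h3
        have h4 : ip v (nu α₀) = ip v (nu θ) := by rw [hkk, nu_per]
        have h5 : 0 ≤ ip v (nu α₀) := h1.2
        linarith
    · refine ⟨1, one_pos, fun α hα h0 => absurd ⟨α, hα, h0⟩ hne⟩
  have hM : 0 ≤ |v.re| + |v.im| := by positivity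
  refine ⟨δ / (|v.re| + |v.im| + 1), fun α => ?_⟩
  have ht : 0 < δ / (|v.re| + |v.im| + 1) := by positivity
  -- reduction to one period
  obtain ⟨k, hα⟩ : ∃ k : ℤ, α + k * (2 * Real.pi) ∈ Icc (θ - Real.pi) (θ + Real.pi) := by
    have h2pi : (0 : ℝ) < 2 * Real.pi := by positivity
    refine ⟨-toIcoDiv h2pi (θ - Real.pi) α, ?_⟩
    have h := sub_toIcoDiv_zsmul_mem_Ico h2pi (θ - Real.pi) α
    rw [zsmul_eq_mul] at h
    have e1 : α + ((-toIcoDiv h2pi (θ - Real.pi) α : ℤ) : ℝ) * (2 * Real.pi) =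
        α - (toIcoDiv h2pi (θ - Real.pi) α : ℝ) * (2 * Real.pi) := by push_cast; ring
    rw [e1]
    exact ⟨h.1, by linarith [h.2]⟩
  rw [← nu_per α k, ← p_per hp α k]
  generalize α + k * (2 * Real.pi) = α' at hα
  rw [ip_add]
  by_cases h0 : 0 ≤ ip v (nu α')
  · have h1 := hg α' hα h0
    have h2 : δ / (|v.re| + |v.im| + 1) * ip v (nu α') < δ := by
      have h3 := (le_abs_self _).trans (ip_bound v α')
      calc δ / (|v.re| + |v.im| + 1) * ip v (nu α')
          ≤ δ / (|v.re| + |v.im| + 1) * (|v.re| + |v.im|) := mul_le_mul_of_nonneg_left h3 ht.le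
        _ < δ / (|v.re| + |v.im| + 1) * (|v.re| + |v.im| + 1) :=
            mul_lt_mul_of_pos_left (by linarith) ht
        _ = δ := div_mul_cancel₀ _ (by positivity)
    linarith
  · have h1 := (hk α').1
    have h2 : δ / (|v.re| + |v.im| + 1) * ip v (nu α') < 0 :=
      mul_neg_of_pos_of_neg ht (not_le.1 h0)
    linarith

/-- **GX-TAN.** -/
theorem gx_TAN (hKEY : S_KEY) (hBODY : S_BODY) : S_TAN := by
  intro p hp θ v hv
  obtain ⟨-, -, -, hint⟩ := hBODY p hp
  have hz : ip v (nu θ) = 0 := by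
    by_contra hne
    rcases lt_or_gt_of_ne hne with h | h
    · obtain ⟨t, ht⟩ := inside hKEY hp θ v h
      refine hv.2 t ?_
      rw [hint]
      exact ht
    · have h' : ip (-v) (nu θ) < 0 := by
        rw [ip_eq] at h ⊢
        rw [Complex.neg_re, Complex.neg_im]
        linarith
      obtain ⟨t, ht⟩ := inside hKEY hp θ (-v) h'
      refine hv.2 (-t) ?_
      rw [hint]
      have e1 : gam p θ + (-t) • v = gam p θ + t • (-v) := by rw [neg_smul, smul_neg]
      rw [e1]
      exact ht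
  rw [ip_eq] at hz
  have hcs := Real.sin_sq_add_cos_sq θ
  have hve : v = (v.re * Real.cos θ + v.im * Real.sin θ) • e θ := by
    apply Complex.ext
    · show v.re = ((v.re * Real.cos θ + v.im * Real.sin θ) • e θ).re
      rw [Complex.smul_re, smul_eq_mul]
      show v.re = (v.re * Real.cos θ + v.im * Real.sin θ) * Real.cos θ
      linear_combination (-v.re) * hcs + Real.sin θ * hz
    · show v.im = ((v.re * Real.cos θ + v.im * Real.sin θ) • e θ).im
      rw [Complex.smul_im, smul_eq_mul]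
      show v.im = (v.re * Real.cos θ + v.im * Real.sin θ) * Real.sin θ
      linear_combination (-v.im) * hcs - Real.cos θ * hz
  refine ⟨v.re * Real.cos θ + v.im * Real.sin θ, ?_, hve⟩
  intro h0
  apply hv.1
  rw [hve, h0, zero_smul]

end Pool.Agent.H922.GXTAN
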